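import Pool.Agent.P.MP_84eedd_co.Rec

/-!
The half-plane cone argument: the refined descent polynomials do not vanish in the upper
half-plane.
-/

namespace Pool.Agent.P.MP_84eedd_co

open Complex

/-- `b / a` has argument between `0` and the argument of `z` -/
def RR (z a b : ℂ) : Prop :=
  0 ≤ (b * (starRingEnd ℂ) a).im ∧ 0 ≤ (z * a * (starRingEnd ℂ) b).im

variable {z : ℂ}

lemma RR.add_left {a a' b : ℂ} (h : RR z a b) (h' : RR z a' b) : RR z (a + a') b := by
  obtain ⟨h1, h2⟩ := h
  obtain ⟨h3, h4⟩ := h'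
  constructor
  · rw [map_add, mul_add, add_im]; linarith
  · rw [mul_add, add_mul, add_im]; linarith

lemma RR.add_right {a b b' : ℂ} (h : RR z a b) (h' : RR z a b') : RR z a (b + b') := by
  obtain ⟨h1, h2⟩ := h
  obtain ⟨h3, h4⟩ := h'
  constructor
  · rw [add_mul, add_im]; linarith
  · rw [map_add, mul_add, add_im]; linarith

lemma RR.zero_left (b : ℂ) : RR z 0 b := by simp [RR]

lemma RR.zero_right (a : ℂ) : RR z a 0 := by simp [RR]

lemma RR.sum_left {ι : Type*} (s : Finset ι) (f : ι → ℂ) (b : ℂ) (h : ∀ i ∈ s, RR z (f i) b) :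
    RR z (∑ i ∈ s, f i) b :=
  Finset.sum_induction f (fun a => RR z a b) (fun _ _ => RR.add_left) (RR.zero_left b) h

lemma RR.sum_right {ι : Type*} (s : Finset ι) (f : ι → ℂ) (a : ℂ) (h : ∀ i ∈ s, RR z a (f i)) :
    RR z a (∑ i ∈ s, f i) :=
  Finset.sum_induction f (fun b => RR z a b) (fun _ _ => RR.add_right) (RR.zero_right a) h

lemma im_mul_self (z a : ℂ) : (z * a * (starRingEnd ℂ) a).im = z.im * normSq a := by
  rw [mul_assoc, mul_conj]; simp

lemma RR.refl (hz : 0 < z.im) (a : ℂ) : RR z a a := by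
  constructor
  · rw [mul_conj]; simp
  · rw [im_mul_self]; exact mul_nonneg hz.le (normSq_nonneg a)

lemma RR.rotate {a b : ℂ} (h : RR z a b) {c : ℝ} (hc : 0 ≤ c) : RR z b ((c : ℂ) * z * a) := by
  obtain ⟨h1, h2⟩ := h
  constructor
  · have : (c : ℂ) * z * a * (starRingEnd ℂ) b = (c : ℂ) * (z * a * (starRingEnd ℂ) b) := by ring
    rw [this, im_ofReal_mul]
    exact mul_nonneg hc h2
  · have : z * b * (starRingEnd ℂ) ((c : ℂ) * z * a) =
        ((c * normSq z : ℝ) : ℂ) * (b * (starRingEnd ℂ) a) := by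
      rw [map_mul, map_mul, conj_ofReal, ofReal_mul, ← mul_conj]; ring
    rw [this, im_ofReal_mul]
    exact mul_nonneg (mul_nonneg hc (normSq_nonneg z)) h1

lemma HH_succ {A : Type*} [CommSemiring A] (y : ℕ → A) (n a : ℕ) :
    HH y (n + 1) a =
      ∑ b ∈ Finset.Ico a (n + 1), HH y n b + (if a = 0 then 0 else y (n + 1) * HH y n 0) := by
  rw [HH]
  by_cases ha : a = 0
  · subst ha
    simp
  · have e : ∀ b ∈ Finset.range (n + 1),
        (if b < a then (if b = 0 then y (n + 1) else 0) else 1) * HH y n b =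
          (if a ≤ b then HH y n b else 0) + (if b = 0 then y (n + 1) * HH y n 0 else 0) := by
      intro b _
      by_cases h1 : b < a
      · by_cases h2 : b = 0
        · subst h2; simp [h1, ha]
        · simp [h1, h2, not_le.mpr h1]
      · have h2 : b ≠ 0 := by omega
        simp [h1, h2, not_lt.mp h1]
    rw [Finset.sum_congr rfl e, Finset.sum_add_distrib, ← Finset.sum_filter, if_neg ha]
    congr 1
    · apply Finset.sum_congr _ (fun _ _ => rfl)
      ext b
      simp [and_comm]
    · simp

theorem HH_inv (hz : 0 < z.im) (c : ℕ → ℝ) (hc : ∀ r, 0 ≤ c r) (n : ℕ) :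
    (∀ a b, a ≤ b → b ≤ n →
      RR z (HH (fun r => (c r : ℂ) * z) n a) (HH (fun r => (c r : ℂ) * z) n b)) ∧
      HH (fun r => (c r : ℂ) * z) n 0 ≠ 0 := by
  induction n with
  | zero =>
    refine ⟨fun a b _ _ => ?_, by simp [HH]⟩
    simp only [HH]
    exact RR.refl hz 1
  | succ n ih =>
    obtain ⟨ih1, ih2⟩ := ih
    set f : ℕ → ℂ := HH (fun r => (c r : ℂ) * z) n with hf
    constructor
    · intro a b hab hb
      rw [HH_succ, HH_succ, ← hf]
      rcases Nat.eq_or_lt_of_le hab with rfl | hlt
      · exact RR.refl hz _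
      have hb0 : b ≠ 0 := by omega
      rw [if_neg hb0, ← Finset.sum_Ico_consecutive f hab hb]
      have hD1 : RR z (∑ i ∈ Finset.Ico a b, f i) (∑ i ∈ Finset.Ico b (n + 1), f i) := by
        apply RR.sum_left
        intro i hi
        apply RR.sum_right
        intro j hj
        rw [Finset.mem_Ico] at hi hj
        exact ih1 i j (by omega) (by omega)
      have hD2 : ∀ s : Finset ℕ, (∀ i ∈ s, i ≤ n) →
          RR z (∑ i ∈ s, f i) ((c (n + 1) : ℂ) * z * f 0) := by
        intro s hs
        apply RR.rotate _ (hc _)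
        apply RR.sum_right
        intro j hj
        exact ih1 0 j (Nat.zero_le _) (hs j hj)
      have hD3 := hD2 (Finset.Ico a b) (fun i hi => by rw [Finset.mem_Ico] at hi; omega)
      have hD4 := hD2 (Finset.Ico b (n + 1)) (fun i hi => by rw [Finset.mem_Ico] at hi; omega)
      by_cases ha : a = 0
      · rw [if_pos ha, add_zero]
        exact (hD1.add_right hD3).add_left ((RR.refl hz _).add_right hD4)
      · rw [if_neg ha, add_assoc]
        exact (hD1.add_right hD3).add_left (RR.refl hz _)
    · rw [HH_succ, ← hf, if_pos rfl, add_zero,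
        ← Finset.sum_Ico_consecutive f (Nat.zero_le 1) (by omega : 1 ≤ n + 1)]
      have h1 : RR z (f 0) (∑ i ∈ Finset.Ico 1 (n + 1), f i) := by
        apply RR.sum_right
        intro j hj
        rw [Finset.mem_Ico] at hj
        exact ih1 0 j (Nat.zero_le _) (by omega)
      intro h0
      have h2 : ∑ i ∈ Finset.Ico 1 (n + 1), f i = - f 0 := by
        simp only [Nat.Ico_succ_singleton, Finset.sum_singleton] at h0
        linear_combination h0
      have h3 := h1.2
      rw [h2, map_neg, mul_neg, neg_im, im_mul_self] at h3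
      have h4 : 0 < z.im * normSq (f 0) := mul_pos hz (normSq_pos.mpr ih2)
      linarith

end Pool.Agent.P.MP_84eedd_co
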