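import Mathlib

/-!
Definitions for run-sorted permutations and their descent polynomials.
The set `[n]` is modelled by `Fin n`; the position or value `i : Fin n` stands for `i + 1`.
-/

namespace Pool.Agent.P.MP_84eedd_co

open Polynomial

/-- `π` is run-sorted: there is a set partition `P` of `[n]` such that the one-line word of `π`
is obtained by listing the blocks by increasing smallest element, writing each block in
increasing order and concatenating. -/
def IsRunSorted {n : ℕ} (π : Equiv.Perm (Fin n)) : Prop :=
  ∃ (P : Finpartition (Finset.univ : Finset (Fin n))) (L : List (Finset (Fin n))),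
    L.toFinset = P.parts ∧ L.Pairwise (fun A B => A.min < B.min) ∧
      List.ofFn π = (L.map fun B => B.sort (· ≤ ·)).flatten

/-- The descent set: positions `i` having a successor position with a smaller value. -/
def DES {n : ℕ} (π : Equiv.Perm (Fin n)) : Finset (Fin n) :=
  Finset.univ.filter fun i => ∃ h : i.val + 1 < n, π ⟨i.val + 1, h⟩ < π i

open Classical in
/-- The multivariate descent polynomial `Q_n`. -/
noncomputable def Q (n : ℕ) : MvPolynomial (Fin n) ℝ :=
  ∑ π ∈ Finset.univ.filter (fun π : Equiv.Perm (Fin n) => IsRunSorted π),
    ∏ i ∈ DES π, MvPolynomial.X i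

/-- The univariate polynomial `p(λ_1 t, …, λ_n t)`. -/
noncomputable def phase {n : ℕ} (p : MvPolynomial (Fin n) ℝ) (lam : Fin n → ℝ) : ℝ[X] :=
  MvPolynomial.aeval (fun i => C (lam i) * X) p

end Pool.Agent.P.MP_84eedd_co
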