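import Pool.Agent.P.MP_84eedd_co.Defs

/-!
A local description of run-sorted words: the first letter is the minimum and every descent
bottom is a minimum of its suffix.
-/

namespace Pool.Agent.P.MP_84eedd_co

variable {α : Type*} [LinearOrder α]

/-- every descent bottom is a minimum of its suffix -/
def Good : List α → Prop
  | [] => True
  | [_] => True
  | a :: b :: l => (b < a → ∀ c ∈ l, b ≤ c) ∧ Good (b :: l)

lemma good_cons_of (a : α) (l : List α) (h : Good l)
    (h2 : ∀ b ∈ l.head?, ∀ c ∈ l, b ≤ c) : Good (a :: l) := by
  cases l with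
  | nil => trivial
  | cons b l =>
    refine ⟨fun _ c hc => h2 b (by simp) c (by simp [hc]), h⟩

lemma good_append (B l : List α) (hB : B.Pairwise (· ≤ ·)) (h : Good l)
    (h2 : ∀ b ∈ l.head?, ∀ c ∈ l, b ≤ c) : Good (B ++ l) := by
  induction B with
  | nil => simpa using h
  | cons a B ih =>
    have ih' := ih (List.Pairwise.of_cons hB)
    cases B with
    | nil => exact good_cons_of a l h h2
    | cons b B =>
      refine ⟨fun hba => ?_, ih'⟩
      have : a ≤ b := List.rel_of_pairwise_cons hB (by simp)
      exact absurd hba (not_lt.mpr this)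

/-- blocks to word -/
lemma good_flatten (L : List (List α)) (h1 : ∀ B ∈ L, B ≠ [] ∧ B.Pairwise (· ≤ ·))
    (h2 : L.Pairwise (fun A B => ∀ a ∈ A.head?, ∀ b ∈ B, a ≤ b)) :
    Good L.flatten ∧ ∀ b ∈ L.flatten.head?, ∀ c ∈ L.flatten, b ≤ c := by
  induction L with
  | nil => simp [Good]
  | cons A L ih =>
    obtain ⟨ih1, ih2⟩ := ih (fun B hB => h1 B (by simp [hB])) (List.Pairwise.of_cons h2)
    obtain ⟨hA, hA2⟩ := h1 A (by simp)
    refine ⟨by simpa using good_append A L.flatten hA2 ih1 ih2, ?_⟩
    cases A with
    | nil => exact absurd rfl hA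
    | cons a A =>
      intro b hb c hc
      simp only [List.flatten_cons, List.cons_append, List.head?_cons, Option.mem_def,
        Option.some.injEq] at hb
      subst hb
      simp only [List.flatten_cons, List.cons_append, List.mem_cons, List.mem_append,
        List.mem_flatten] at hc
      rcases hc with rfl | hc | ⟨B, hB, hc⟩
      · exact le_rfl
      · exact List.rel_of_pairwise_cons hA2 hc
      · exact List.rel_of_pairwise_cons h2 hB a (by simp) c hc

/-- word to blocks (the runs) -/
lemma exists_blocks (a : α) (l : List α) (h : Good (a :: l)) :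
    ∃ (A : List α) (L : List (List α)), ((a :: A) :: L).flatten = a :: l ∧
      (a :: A).Pairwise (· ≤ ·) ∧ (∀ B ∈ L, B ≠ [] ∧ B.Pairwise (· ≤ ·)) ∧
      L.Pairwise (fun A B => ∀ a ∈ A.head?, ∀ b ∈ B, a ≤ b) := by
  induction l generalizing a with
  | nil => exact ⟨[], [], by simp, by simp, by simp, by simp⟩
  | cons b l ih =>
    obtain ⟨h1, h2⟩ := h
    obtain ⟨A, L, e, hA, hL, hP⟩ := ih b h2
    by_cases hba : b < a
    · refine ⟨[], (b :: A) :: L, by rw [List.flatten_cons, e]; rfl, by simp, ?_, ?_⟩
      · intro B hB
        rcases List.mem_cons.mp hB with rfl | hB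
        · exact ⟨by simp, hA⟩
        · exact hL B hB
      · refine List.Pairwise.cons ?_ hP
        intro B hB x hx c hc
        simp only [List.head?_cons, Option.mem_def, Option.some.injEq] at hx
        subst hx
        apply h1 hba
        have : c ∈ ((b :: A) :: L).flatten.tail := by
          simp only [List.flatten_cons, List.cons_append, List.tail_cons, List.mem_append,
            List.mem_flatten]
          exact Or.inr ⟨B, hB, hc⟩
        rwa [e] at this
    · refine ⟨b :: A, L, ?_, ?_, hL, hP⟩
      · simp only [List.flatten_cons, List.cons_append] at e ⊢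
        rw [e]
      · refine List.Pairwise.cons ?_ hA
        intro c hc
        rcases List.mem_cons.mp hc with rfl | hc
        · exact not_lt.mp hba
        · exact (not_lt.mp hba).trans (List.rel_of_pairwise_cons hA hc)

lemma min_toFinset_cons [DecidableEq α] (a : α) (A : List α) (h : (a :: A).Pairwise (· ≤ ·)) :
    (a :: A).toFinset.min = (a : WithTop α) := by
  apply le_antisymm
  · exact Finset.min_le (by simp)
  · apply Finset.le_min
    intro b hb
    rcases List.mem_cons.mp (List.mem_toFinset.mp hb) with rfl | hb
    · exact le_rfl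
    · exact WithTop.coe_le_coe.mpr (List.rel_of_pairwise_cons h hb)

theorem isRunSorted_iff {n : ℕ} (π : Equiv.Perm (Fin (n + 1))) :
    IsRunSorted π ↔ π 0 = 0 ∧ Good (List.ofFn π) := by
  constructor
  · rintro ⟨P, L, hLP, hmin, e⟩
    have hne : ∀ B ∈ L, B.Nonempty := by
      intro B hB
      have : B ∈ P.parts := by rw [← hLP]; exact List.mem_toFinset.mpr hB
      exact P.nonempty_of_mem_parts this
    have key := good_flatten (L.map fun B => B.sort (· ≤ ·)) ?_ ?_
    · rw [← e] at key
      refine ⟨?_, key.1⟩
      have h0 := key.2 (π 0) (by simp [List.ofFn_succ]) 0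
        (by rw [List.mem_ofFn]; exact ⟨π.symm 0, by simp⟩)
      exact le_antisymm h0 (Fin.zero_le _)
    · intro B hB
      obtain ⟨S, hS, rfl⟩ := List.mem_map.mp hB
      refine ⟨?_, Finset.pairwise_sort _ _⟩
      intro h0
      obtain ⟨x, hx⟩ := hne S hS
      have : x ∈ S.sort (· ≤ ·) := (Finset.mem_sort _).mpr hx
      rw [h0] at this
      simp at this
    · rw [List.pairwise_map]
      refine hmin.imp ?_
      intro A B hAB a ha b hb
      have hb' : b ∈ B := (Finset.mem_sort _).mp hb
      have hAa : (a : WithTop (Fin (n + 1))) = A.min := by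
        have hs := Finset.pairwise_sort A (· ≤ ·)
        have ht := Finset.sort_toFinset A (· ≤ ·)
        cases hA : A.sort (· ≤ ·) with
        | nil => rw [hA] at ha; simp at ha
        | cons x xs =>
          rw [hA] at ha hs ht
          simp only [List.head?_cons, Option.mem_def, Option.some.injEq] at ha
          subst ha
          rw [← ht, min_toFinset_cons x xs hs]
      have h1 : B.min ≤ (b : WithTop (Fin (n + 1))) := Finset.min_le hb'
      have : (a : WithTop (Fin (n + 1))) < b := by rw [hAa]; exact lt_of_lt_of_le hAB h1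
      exact (WithTop.coe_lt_coe.mp this).le
  · rintro ⟨h0, hg⟩
    have hnd : (List.ofFn π).Nodup := List.nodup_ofFn.mpr π.injective
    have hall : ∀ x, x ∈ List.ofFn π := fun x => by
      rw [List.mem_ofFn]; exact ⟨π.symm x, by simp⟩
    rw [List.ofFn_succ, h0] at hg hnd hall
    obtain ⟨A, L, e, hA, hL, hP⟩ := exists_blocks _ _ hg
    set M : List (List (Fin (n + 1))) := (0 :: A) :: L with hM
    have hM1 : ∀ B ∈ M, B ≠ [] ∧ B.Pairwise (· ≤ ·) := by
      intro B hB
      rcases List.mem_cons.mp hB with rfl | hB
      · exact ⟨by simp, hA⟩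
      · exact hL B hB
    have hM2 : M.Pairwise (fun A B => ∀ a ∈ A.head?, ∀ b ∈ B, a ≤ b) := by
      refine List.Pairwise.cons ?_ hP
      intro B _ x hx c _
      simp only [List.head?_cons, Option.mem_def, Option.some.injEq] at hx
      subst hx
      exact Fin.zero_le _
    rw [← e] at hnd hall
    obtain ⟨hnd1, hdis⟩ := List.nodup_flatten.mp hnd
    have hdis' : (M.map List.toFinset).Pairwise Disjoint := by
      rw [List.pairwise_map]
      exact hdis.imp fun h => List.disjoint_toFinset_iff_disjoint.mpr h
    refine ⟨⟨(M.map List.toFinset).toFinset, ?_, ?_, ?_⟩, M.map List.toFinset, rfl, ?_, ?_⟩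
    · rw [Finset.supIndep_iff_pairwiseDisjoint]
      intro x hx y hy hxy
      have hx' : x ∈ M.map List.toFinset := List.mem_toFinset.mp hx
      have hy' : y ∈ M.map List.toFinset := List.mem_toFinset.mp hy
      have : Std.Symm (Disjoint : Finset (Fin (n + 1)) → _ → Prop) := ⟨fun _ _ h => h.symm⟩
      exact hdis'.forall hx' hy' hxy
    · apply Finset.eq_univ_of_forall
      intro x
      obtain ⟨B, hB, hx⟩ := List.mem_flatten.mp (hall x)
      rw [Finset.mem_sup]
      exact ⟨B.toFinset, List.mem_toFinset.mpr (List.mem_map_of_mem hB),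
        List.mem_toFinset.mpr hx⟩
    · intro hb
      obtain ⟨B, hB, hB0⟩ := List.mem_map.mp (List.mem_toFinset.mp hb)
      exact (hM1 B hB).1 (List.toFinset_eq_empty_iff B |>.mp hB0)
    · rw [List.pairwise_map]
      have hboth := (hM2.and hdis).imp_of_mem (S := fun A B : List (Fin (n + 1)) =>
        A.toFinset.min < B.toFinset.min) ?_
      · exact hboth
      · intro A B hA hB ⟨h1, h2⟩
        obtain ⟨hA1, hA2⟩ := hM1 A hA
        obtain ⟨hB1, hB2⟩ := hM1 B hB
        cases A with
        | nil => exact absurd rfl hA1
        | cons a A =>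
          cases B with
          | nil => exact absurd rfl hB1
          | cons b B =>
            rw [min_toFinset_cons a A hA2, min_toFinset_cons b B hB2, WithTop.coe_lt_coe]
            refine lt_of_le_of_ne (h1 a (by simp) b (by simp)) ?_
            rintro rfl
            exact h2 (a := a) (by simp) (by simp)
    · rw [List.ofFn_succ, h0, ← e, List.map_map]
      congr 1
      symm
      conv_rhs => rw [← List.map_id M]
      apply List.map_congr_left
      intro B hB
      exact (List.toFinset_sort _ (hnd1 B hB)).mpr (hM1 B hB).2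

end Pool.Agent.P.MP_84eedd_co
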