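import Pool.Agent.P.MP_84eedd_co.Lists

/-!
The first-letter refinement of the descent polynomial and its recursion.
-/

namespace Pool.Agent.P.MP_84eedd_co

open Equiv

variable {α β : Type*} [LinearOrder α] [LinearOrder β] {A : Type*} [CommSemiring A] (y : ℕ → A)

/-- weight of a word: a descent followed by `r` letters has weight `y r` -/
def wt : List α → A
  | [] => 1
  | [_] => 1
  | a :: b :: l => (if b < a then y (l.length + 1) else 1) * wt (b :: l)

open Classical in
/-- weight restricted to good words -/
noncomputable def vt (l : List α) : A := if Good l then wt y l else 0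

open Classical in
lemma vt_cons_cons (a b : α) (l : List α) :
    vt y (a :: b :: l) =
      (if b < a then (if ∀ c ∈ l, b ≤ c then y (l.length + 1) else 0) else 1) * vt y (b :: l) := by
  unfold vt
  by_cases h1 : b < a <;> by_cases h2 : (∀ c ∈ l, b ≤ c) <;> by_cases h3 : Good (b :: l) <;>
    simp only [Good, wt, h1, h2, h3] <;> simp_all

lemma good_map (f : α → β) (hf : StrictMono f) : ∀ l : List α, Good (l.map f) ↔ Good l
  | [] => Iff.rfl
  | [_] => Iff.rfl
  | a :: b :: l => by
    have ih := good_map f hf (b :: l)
    simp only [List.map_cons] at ih ⊢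
    simp only [Good, ih, hf.lt_iff_lt, List.mem_map, forall_exists_index, and_imp,
      forall_apply_eq_imp_iff₂, hf.le_iff_le]

lemma wt_map (f : α → β) (hf : StrictMono f) : ∀ l : List α, wt y (l.map f) = wt y l
  | [] => rfl
  | [_] => rfl
  | a :: b :: l => by
    have ih := wt_map f hf (b :: l)
    simp only [List.map_cons] at ih ⊢
    simp only [wt, ih, hf.lt_iff_lt, List.length_map]

lemma vt_map (f : α → β) (hf : StrictMono f) (l : List α) : vt y (l.map f) = vt y l := by
  unfold vt
  rw [good_map f hf, wt_map y f hf]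

lemma wt_ofFn : ∀ (m : ℕ) (f : Fin (m + 1) → α),
    wt y (List.ofFn f) = ∏ i : Fin m, if f i.succ < f i.castSucc then y (m - i) else 1
  | 0, f => by simp [List.ofFn_succ, wt]
  | m + 1, f => by
    have ih := wt_ofFn m (fun i => f i.succ)
    rw [List.ofFn_succ] at ih
    rw [List.ofFn_succ, List.ofFn_succ, wt, ih, Fin.prod_univ_succ]
    congr 1
    · simp
    · apply Finset.prod_congr rfl
      intro i _
      simp

/-- prepend the letter `a` -/
def ins {n : ℕ} (a : Fin (n + 1)) (σ : Perm (Fin n)) : Perm (Fin (n + 1)) :=
  a.cycleRange.symm * Perm.decomposeFin.symm (0, σ)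

lemma ins_zero {n : ℕ} (a : Fin (n + 1)) (σ : Perm (Fin n)) : ins a σ 0 = a := by
  simp [ins]

lemma ins_succ {n : ℕ} (a : Fin (n + 1)) (σ : Perm (Fin n)) (i : Fin n) :
    ins a σ i.succ = a.succAbove (σ i) := by
  simp [ins]

lemma ins_bijective {n : ℕ} :
    Function.Bijective (fun p : Fin (n + 1) × Perm (Fin n) => ins p.1 p.2) := by
  rw [Fintype.bijective_iff_injective_and_card]
  constructor
  · rintro ⟨a, σ⟩ ⟨b, τ⟩ h
    have hab : a = b := by
      have := congrArg (fun π : Perm (Fin (n + 1)) => π 0) h
      simpa [ins_zero] using this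
    subst hab
    congr 1
    ext i
    have := congrArg (fun π : Perm (Fin (n + 1)) => π i.succ) h
    simp only [ins_succ] at this
    rw [Fin.succAbove_right_injective this]
  · simp [Fintype.card_perm, Nat.factorial_succ]

/-- generating function of the good words on `n + 1` letters starting with `a` -/
noncomputable def FF (n : ℕ) (a : Fin (n + 1)) : A :=
  ∑ π : Perm (Fin (n + 1)), if π 0 = a then vt y (List.ofFn π) else 0

/-- the explicit recursion -/
def HH : ℕ → ℕ → A
  | 0, _ => 1
  | n + 1, a => ∑ b ∈ Finset.range (n + 1),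
      (if b < a then (if b = 0 then y (n + 1) else 0) else 1) * HH n b

lemma vt_ins {n : ℕ} (a : Fin (n + 2)) (σ : Perm (Fin (n + 1))) :
    vt y (List.ofFn (ins a σ)) =
      (if (σ 0).val < a.val then (if (σ 0).val = 0 then y (n + 1) else 0) else 1) *
        vt y (List.ofFn σ) := by
  have hf : StrictMono a.succAbove := Fin.strictMono_succAbove a
  have e1 : List.ofFn (ins a σ) =
      a :: a.succAbove (σ 0) :: (List.ofFn fun i : Fin n => σ i.succ).map a.succAbove := by
    rw [List.ofFn_succ, List.ofFn_succ, ins_zero, ins_succ, List.map_ofFn]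
    simp only [ins_succ]
    rfl
  have e2 : vt y (a.succAbove (σ 0) :: (List.ofFn fun i : Fin n => σ i.succ).map a.succAbove) =
      vt y (List.ofFn σ) := by
    rw [← List.map_cons, vt_map y _ hf, List.ofFn_succ]
  rw [e1, vt_cons_cons, e2]
  congr 1
  have h1 : a.succAbove (σ 0) < a ↔ (σ 0).val < a.val := by
    rw [Fin.succAbove_lt_iff_castSucc_lt]; rfl
  have h2 : (∀ c ∈ (List.ofFn fun i : Fin n => σ i.succ).map a.succAbove,
      a.succAbove (σ 0) ≤ c) ↔ (σ 0).val = 0 := by
    simp only [List.mem_map, List.mem_ofFn, forall_exists_index, and_imp,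
      hf.le_iff_le, forall_apply_eq_imp_iff]
    constructor
    · intro h
      obtain ⟨j, hj⟩ := σ.surjective 0
      refine Fin.cases (motive := fun j => σ j = 0 → (σ 0).val = 0) ?_ ?_ j hj
      · intro h0; rw [h0]; rfl
      · intro i hi
        have := h i
        rw [hi] at this
        exact Nat.le_zero.mp this
    · intro h i
      rw [Fin.le_def, h]
      exact Nat.zero_le _
  simp only [h1, h2, List.length_map, List.length_ofFn]

theorem FF_eq_HH : ∀ (n : ℕ) (a : Fin (n + 1)), FF y n a = HH y n a.val
  | 0, a => by
    have : a = 0 := Fin.ext (by have := a.isLt; omega)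
    subst this
    rw [FF, Finset.sum_eq_single (1 : Perm (Fin (0 + 1)))]
    · simp [HH, vt, List.ofFn_succ, Good, wt]
    · intro b _ hb
      exact absurd (Subsingleton.elim (α := Perm (Fin 1)) _ _) hb
    · simp
  | n + 1, a => by
    have ih := FF_eq_HH n
    unfold FF
    rw [← ins_bijective.sum_comp, Fintype.sum_prod_type]
    simp only [ins_zero]
    rw [Finset.sum_comm]
    simp only [Finset.sum_ite_eq', Finset.mem_univ, if_true, vt_ins]
    rw [HH, Finset.sum_range]
    simp only [← ih, FF, Finset.mul_sum]
    rw [Finset.sum_comm]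
    apply Finset.sum_congr rfl
    intro σ _
    simp only [mul_ite, mul_zero, Finset.sum_ite_eq, Finset.mem_univ, if_true]

/-- evaluation of `Q (n + 1)` in terms of the recursion -/
theorem aeval_Q {B : Type*} [CommRing B] [Algebra ℝ B] (n : ℕ) (x : ℕ → B) :
    MvPolynomial.aeval (fun i : Fin (n + 1) => x i.val) (Q (n + 1)) =
      HH (fun r => x (n - r)) n 0 := by
  classical
  have := FF_eq_HH (fun r => x (n - r)) n 0
  rw [Fin.val_zero] at this
  rw [← this, Q, map_sum, Finset.sum_filter, FF]
  apply Finset.sum_congr rfl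
  intro π _
  rw [isRunSorted_iff]
  unfold vt
  by_cases h0 : π 0 = 0
  · by_cases hg : Good (List.ofFn π)
    · simp only [h0, hg, and_self, if_true]
      rw [wt_ofFn, map_prod, DES, Finset.prod_filter, Fin.prod_univ_castSucc]
      simp only [Fin.val_last, lt_self_iff_false, IsEmpty.exists_iff, if_false, mul_one,
        MvPolynomial.aeval_X]
      apply Finset.prod_congr rfl
      intro i _
      have hi : n - (n - i.val) = i.val := by have := i.isLt; omega
      have hiff : (∃ h : (i.castSucc).val + 1 < n + 1,
          π ⟨(i.castSucc).val + 1, h⟩ < π i.castSucc) ↔ π i.succ < π i.castSucc := by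
        constructor
        · rintro ⟨h, h'⟩; exact h'
        · intro h'; exact ⟨by have := i.isLt; simp, h'⟩
      simp only [hiff, hi]
      rfl
    · simp only [hg, and_false, if_false, ite_self]
  · simp only [h0, false_and, if_false]

end Pool.Agent.P.MP_84eedd_co
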